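import Pool.Agent.R337.Ent.Main

/-!
# The Addition Theorem for endomorphisms of strongly compactly covered tqh groups

MP_febddb_al, Q1, answered positively.  All groups are Hausdorff topological groups.

Definitions used (all in `Pool.Agent.R337.Ent.Main` and `Pool.Agent.R337.Ent.Quo`):
* `IsTQH G`: `closure (X Y) = closure (Y X)` for all closed subgroups `X, Y`;
* `CoveredByCompactOpen G`: every element lies in a compact open subgroup.  A strongly compactly
  covered group (every element lies in a compact open normal subgroup) has this property, see
  `coveredByCompactOpen_of_strongly` below;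
* `IsRightHaar μ`: `μ` is a Borel measure, finite on compact sets, positive on nonempty open sets
  and right invariant (such measures exist on every locally compact group, see
  `exists_isRightHaar`);
* `traj φ U n = U φ(U) ⋯ φ^{n-1}(U)`, `Halg μ φ U = limsup log μ(traj φ U n) / n` and
  `halg μ φ` is the supremum of `Halg μ φ U` over the compact neighbourhoods `U` of `1`;
* `quoHom φ H hH` and `resHom φ H hH` are the endomorphisms of `G ⧸ H` and of `H` induced by `φ`.
-/

open Topology R337.Ent

namespace Pool.Agent.Results.MP_febddb_al.AdditionTheorem

universe u

/-- strongly compactly covered groups are covered by compact open subgroups -/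
theorem coveredByCompactOpen_of_strongly (G : Type u) [Group G] [TopologicalSpace G]
    (h : StronglyCompactlyCovered G) : CoveredByCompactOpen G := fun x => by
  obtain ⟨N, -, hc, ho, hx⟩ := h x
  exact ⟨N, hc, ho, hx⟩

/-- the Addition Theorem holds for `φ`: for every closed normal subgroup `H` with `φ(H) ≤ H` and
all right Haar measures on `G`, `H` and `G ⧸ H` one has `h(φ) = h(φ̄) + h(φ|H)` -/
def AdditionTheoremFor {G : Type u} [Group G] [TopologicalSpace G] [IsTopologicalGroup G]
    (φ : G →* G) : Prop :=
  ∀ (H : Subgroup G) [H.Normal], IsClosed (H : Set G) → ∀ hH : H ≤ H.comap φ,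
    ∀ (μ : @MeasureTheory.Measure G (borel G)) (μH : @MeasureTheory.Measure H (borel H))
      (μQ : @MeasureTheory.Measure (G ⧸ H) (borel (G ⧸ H))),
      IsRightHaar μ → IsRightHaar μH → IsRightHaar μQ →
        halg μ φ = halg μQ (quoHom φ H hH) + halg μH (resHom φ H hH)

/-- The Addition Theorem holds for every continuous endomorphism of a topologically
quasihamiltonian group which is covered by compact open subgroups, in particular of every strongly
compactly covered topologically quasihamiltonian group. -/
theorem result (G : Type u) [Group G] [TopologicalSpace G] [IsTopologicalGroup G] [T2Space G]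
    (hcov : CoveredByCompactOpen G) (hq : IsTQH G) (φ : G →* G) (hφ : Continuous φ) :
    AdditionTheoremFor φ := by
  intro H _ hHc hH μ μH μQ hμ hμH hμQ
  exact addition (pc_of_tqh hq) hcov φ hφ H hHc hH hμ hμH hμQ

end Pool.Agent.Results.MP_febddb_al.AdditionTheorem
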